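import Pool.Agent.Helper6.LP.St

/-!
# Project LP (MP_5e9b96_nt), module CSM: complete sums
-/

set_option autoImplicit false

namespace Pool.Agent.Helper86.LP

open Finset
open Pool.Agent.Helper60.LZ (js)
open Pool.Agent.Helper6.LP

/-- periodic functions with complete sum `1` -/
private theorem per (G : ℕ → ℝ) (N : ℕ) (hN : 0 < N) (hp : ∀ j, G (N + j) = G j)
    (h1 : ∀ j, |G j| ≤ 1) (hS : ∑ j ∈ range N, G j = 1) :
    ∀ J : ℕ, |∑ j ∈ range J, G j| ≤ J / (N : ℝ) + N := by
  have hN' : (0 : ℝ) < N := by exact_mod_cast hN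
  intro J
  induction J using Nat.strong_induction_on with
  | _ J ih =>
    by_cases hJ : J < N
    · have h2 : |∑ j ∈ range J, G j| ≤ J := by
        calc |∑ j ∈ range J, G j| ≤ ∑ j ∈ range J, |G j| := Finset.abs_sum_le_sum_abs _ _
          _ ≤ ∑ _j ∈ range J, (1 : ℝ) := Finset.sum_le_sum fun j _ => h1 j
          _ = J := by simp
      have h3 : (J : ℝ) ≤ N := by exact_mod_cast hJ.le
      have h4 : (0 : ℝ) ≤ J / (N : ℝ) := by positivity
      linarith
    · have h2 : J = N + (J - N) := by omega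
      have h3 := ih (J - N) (by omega)
      have h4 : ∑ j ∈ range J, G j = 1 + ∑ j ∈ range (J - N), G j := by
        conv_lhs => rw [h2]
        rw [Finset.sum_range_add, hS]
        congr 1
        exact Finset.sum_congr rfl fun j _ => hp j
      have h5 : ((J - N : ℕ) : ℝ) = (J : ℝ) - N := by
        rw [Nat.cast_sub (by omega)]
      rw [h5, sub_div, div_self hN'.ne'] at h3
      rw [h4]
      have h6 := abs_add_le (1 : ℝ) (∑ j ∈ range (J - N), G j)
      rw [abs_one] at h6
      linarith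

section field

variable {F : Type} [Field F] [Fintype F] [DecidableEq F]

/-- the complete sum of the character of `s ^ 2 + 4 s` -/
private theorem sum1 (hF : ringChar F ≠ 2) (h4 : (4 : F) ≠ 0) :
    ∑ s : F, quadraticChar F (s ^ 2 + 4 * s) = -1 := by
  have h1 : ∀ s : F, quadraticChar F (s ^ 2 + 4 * s) =
      quadraticChar F (1 + 4 * s⁻¹) - if s = 0 then 1 else 0 := by
    intro s
    by_cases hs : s = 0
    · subst hs
      simp
    · rw [if_neg hs, sub_zero]
      have h2 : s ^ 2 + 4 * s = s ^ 2 * (1 + 4 * s⁻¹) := by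
        field_simp
      rw [h2, map_mul, quadraticChar_sq_one' hs, one_mul]
  have hb : Function.Bijective (fun s : F => 1 + 4 * s⁻¹) := by
    rw [← Finite.injective_iff_bijective]
    intro s s' h
    simp only [add_right_inj] at h
    exact inv_injective (mul_left_cancel₀ h4 h)
  rw [Finset.sum_congr rfl fun s _ => h1 s, Finset.sum_sub_distrib, Finset.sum_ite_eq' univ (0 : F)]
  have h3 := hb.sum_comp (fun w => quadraticChar F w)
  rw [h3, quadraticChar_sum_zero hF]
  simp

/-- the complete sum of the character of `t ^ 2 - 4` -/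
private theorem sum2 (hF : ringChar F ≠ 2) (h4 : (4 : F) ≠ 0) (r P : F) (hP : P ≠ 0) :
    ∑ x : F, quadraticChar F ((r + P * (1 + x) - 2) ^ 2 - 4) = -1 := by
  rw [← sum1 hF h4]
  have hb : Function.Bijective (fun x : F => r + P * (1 + x) - 2 - 2) := by
    rw [← Finite.injective_iff_bijective]
    intro s s' h
    simp only [sub_left_inj, add_right_inj] at h
    exact add_left_cancel (mul_left_cancel₀ hP h)
  have h3 := hb.sum_comp (fun s => quadraticChar F (s ^ 2 + 4 * s))
  rw [← h3]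
  refine Finset.sum_congr rfl fun x _ => ?_
  congr 1
  ring

end field

/-- the Chinese remainder theorem -/
private theorem crt (l l' : ℕ) [NeZero l] [NeZero l'] (hc : l.Coprime l') (h : ZMod l → ℤ)
    (h' : ZMod l' → ℤ) :
    ∑ j ∈ range (l * l'), h (j : ZMod l) * h' (j : ZMod l') = (∑ x, h x) * ∑ y, h' y := by
  have : NeZero (l * l') := ⟨Nat.mul_ne_zero (NeZero.ne l) (NeZero.ne l')⟩
  have h1 : ∑ j ∈ range (l * l'), h (j : ZMod l) * h' (j : ZMod l') =
      ∑ z : ZMod (l * l'), h (ZMod.chineseRemainder hc z).1 * h' (ZMod.chineseRemainder hc z).2 := by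
    refine Finset.sum_bij' (fun j _ => (j : ZMod (l * l'))) (fun z _ => z.val)
      (fun _ _ => Finset.mem_univ _) (fun z _ => Finset.mem_range.2 (ZMod.val_lt z))
      (fun j hj => ZMod.val_natCast_of_lt (Finset.mem_range.1 hj))
      (fun z _ => ZMod.natCast_zmod_val z) (fun j _ => ?_)
    rw [map_natCast]
    rfl
  rw [h1]
  refine (Equiv.sum_comp (ZMod.chineseRemainder hc).toEquiv
    (fun w : ZMod l × ZMod l' => h w.1 * h' w.2)).trans ?_
  rw [Fintype.sum_prod_type, Finset.sum_mul_sum]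

private theorem js_eq (P r l j : ℕ) [Fact l.Prime] (hr : 1 ≤ r) (hP : 1 ≤ P) :
    js (r + P * (1 + j) - 2) l =
      ((quadraticChar (ZMod l) (((r : ZMod l) + P * (1 + (j : ZMod l)) - 2) ^ 2 - 4) : ℤ) : ℝ) := by
  unfold js
  rw [← jacobiSym.legendreSym.to_jacobiSym]
  unfold legendreSym
  have h2 : 2 ≤ r + P * (1 + j) := by nlinarith
  have h3 : (((((r + P * (1 + j) - 2 : ℕ) : ℤ) ^ 2 - 4 : ℤ)) : ZMod l) =
      ((r : ZMod l) + P * (1 + (j : ZMod l)) - 2) ^ 2 - 4 := by
    push_cast [Nat.cast_sub h2]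
    ring
  rw [h3]

private theorem js_abs (t l : ℕ) : |js t l| ≤ 1 := by
  unfold js
  rcases jacobiSym.trichotomy ((t : ℤ) ^ 2 - 4) l with h | h | h <;> rw [h] <;> norm_num

private theorem chars (l : ℕ) [Fact l.Prime] (h3 : 3 < l) :
    ringChar (ZMod l) ≠ 2 ∧ (4 : ZMod l) ≠ 0 := by
  constructor
  · rw [ZMod.ringChar_zmod_n]
    omega
  · intro h
    have h1 : ((4 : ℕ) : ZMod l) = 0 := by exact_mod_cast h
    rw [ZMod.natCast_eq_zero_iff] at h1
    have h2 : l ∣ 2 ^ 2 := by
      norm_num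
      exact h1
    have h4 : l ∣ 2 := (Fact.out : l.Prime).dvd_of_dvd_pow h2
    have := Nat.le_of_dvd (by norm_num) h4
    omega

/-- Module CSM. -/
theorem hCSM : StCSM := by
  intro P r l l' J hl hl' h3 h3' hne hP hP' hr hP1
  have : Fact l.Prime := ⟨hl⟩
  have : Fact l'.Prime := ⟨hl'⟩
  have : NeZero l := ⟨hl.ne_zero⟩
  have : NeZero l' := ⟨hl'.ne_zero⟩
  have hc : l.Coprime l' := (Nat.coprime_primes hl hl').2 hne
  obtain ⟨c1, c2⟩ := chars l h3
  obtain ⟨c1', c2'⟩ := chars l' h3'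
  have hPl : (P : ZMod l) ≠ 0 := fun h => hP ((ZMod.natCast_eq_zero_iff P l).1 h)
  have hPl' : (P : ZMod l') ≠ 0 := fun h => hP' ((ZMod.natCast_eq_zero_iff P l').1 h)
  have hN : 0 < l * l' := Nat.mul_pos hl.pos hl'.pos
  obtain ⟨G, hG⟩ : ∃ G : ℕ → ℝ, ∀ j, G j =
      js (r + P * (1 + j) - 2) l * js (r + P * (1 + j) - 2) l' := ⟨_, fun _ => rfl⟩
  have hG2 : ∀ j, G j = (((quadraticChar (ZMod l)
      (((r : ZMod l) + P * (1 + (j : ZMod l)) - 2) ^ 2 - 4)) *
      (quadraticChar (ZMod l') (((r : ZMod l') + P * (1 + (j : ZMod l')) - 2) ^ 2 - 4)) : ℤ) : ℝ) := by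
    intro j
    rw [hG, js_eq P r l j hr hP1, js_eq P r l' j hr hP1]
    push_cast
    rfl
  have hp : ∀ j, G (l * l' + j) = G j := by
    intro j
    rw [hG2, hG2]
    have e1 : ((l * l' + j : ℕ) : ZMod l) = (j : ZMod l) := by
      push_cast
      rw [ZMod.natCast_self, zero_mul, zero_add]
    have e2 : ((l * l' + j : ℕ) : ZMod l') = (j : ZMod l') := by
      push_cast
      rw [ZMod.natCast_self, mul_zero, zero_add]
    rw [e1, e2]
  have h1 : ∀ j, |G j| ≤ 1 := by
    intro j
    rw [hG, abs_mul]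
    exact mul_le_one₀ (js_abs _ _) (abs_nonneg _) (js_abs _ _)
  have hS : ∑ j ∈ range (l * l'), G j = 1 := by
    rw [Finset.sum_congr rfl fun j _ => hG2 j, ← Int.cast_sum,
      crt l l' hc (fun x => quadraticChar (ZMod l) (((r : ZMod l) + P * (1 + x) - 2) ^ 2 - 4))
        (fun x => quadraticChar (ZMod l') (((r : ZMod l') + P * (1 + x) - 2) ^ 2 - 4)),
      sum2 c1 c2 (r : ZMod l) (P : ZMod l) hPl, sum2 c1' c2' (r : ZMod l') (P : ZMod l') hPl']
    norm_num
  have hsum : ∑ j ∈ Icc 1 J, js (r + P * j - 2) l * js (r + P * j - 2) l' =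
      ∑ j ∈ range J, G j := by
    have e : Icc 1 J = Ico 1 (J + 1) := by
      ext j
      simp only [Finset.mem_Icc, Finset.mem_Ico]
      omega
    rw [e, Finset.sum_Ico_eq_sum_range, Nat.add_sub_cancel]
    exact Finset.sum_congr rfl fun j _ => (hG j).symm
  rw [hsum]
  have := per G (l * l') hN hp h1 hS J
  push_cast at this
  exact this

end Pool.Agent.Helper86.LP
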